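import Pool.Agent.Q149.MecB

open Q149.Fun

namespace Pool.Agent.Results.MP_6bfe6b_gt.FiniteOnePreimages

/-- There is a mec functor that preserves finite 1-preimages but does not preserve
1-preimages. -/
theorem result : ∃ F : CompFunctor,
    IsMec F ∧ PreservesFinOnePreimages F ∧ ¬ PreservesOnePreimages F :=
  ⟨T, T_mec, T_fin, T_not_one⟩

end Pool.Agent.Results.MP_6bfe6b_gt.FiniteOnePreimages
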