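import Pool.Agent.Q149.MecA

open Q149.Fun

namespace Pool.Agent.Results.MP_6bfe6b_gt.FinitePreimages

/-- Every mec functor that preserves finite preimages preserves preimages. -/
theorem result : ∀ F : CompFunctor, IsMec F → PreservesFinPreimages F → PreservesPreimages F :=
  fun _ hF h => preservesPreimages_of_fin hF.mono h

end Pool.Agent.Results.MP_6bfe6b_gt.FinitePreimages
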